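import Pool.Agent.H334R2.CM.Defs
import Pool.Agent.H334R2.CM.S.GL1
import Pool.Agent.H334R2.CM.S.GL2
import Pool.Agent.H334R2.CM.S.LOC
set_option autoImplicit false
open scoped Matrix MatrixGroups
universe u
namespace CM

lemma CAR.inf_eq {k : Type u} [Field k] {A : Type u} [Ring A] [Algebra k A] (e f : A)
    (hf : f * f = f) :
    ((Submodule.span A {f} : Submodule A A).restrictScalars k ⊓ cor k e 1) = cor k e f := by
  ext x
  rw [Submodule.mem_inf, Submodule.restrictScalars_mem, Submodule.mem_span_singleton, mem_cor,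
    mem_cor]
  constructor
  · rintro ⟨⟨a, rfl⟩, h1, -⟩
    refine ⟨h1, ?_⟩
    rw [smul_eq_mul, mul_assoc, hf]
  · rintro ⟨h1, h2⟩
    exact ⟨⟨x, by rw [smul_eq_mul, h2]⟩, h1, mul_one x⟩

/-- a full family of local idempotents computes the Cartan matrix -/
theorem CAR {k : Type u} [Field k] {A : Type u} [Ring A] [Algebra k A]
    [FiniteDimensional k A] {ι : Type} {C : Matrix ι ι ℕ}
    (hC : ∀ i j, i ≠ j → C i i ≠ C i j) (h : IdemCartan k A C) : IsCartan A C := by
  obtain ⟨ε, hloc, hfr, hsimp⟩ := h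
  have h1 : ∀ i, ∃ (S : ModuleCat.{u} A) (π : (Submodule.span A {ε i} : Submodule A A) →ₗ[A] S),
      IsSimpleModule A S ∧ IsProjCover A π ∧
      ∀ (M : Type u) [AddCommGroup M] [Module A M], IsSimpleModule A M →
        ((∃ m : M, ε i • m ≠ 0) ↔ Nonempty (M ≃ₗ[A] S)) := by
    intro i
    obtain ⟨S, i1, i2, π, hS, hπ, hM⟩ := GL1 (ε i) (hloc i)
    exact ⟨ModuleCat.of A S, π, hS, hπ, hM⟩
  choose S π hS hπ hM using h1
  refine ⟨S, fun i => ModuleCat.of A (Submodule.span A {ε i} : Submodule A A), hS, ?_, ?_,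
    fun i => ⟨π i, hπ i⟩, ?_⟩
  · rintro i j ⟨e⟩
    by_contra hij
    have h1 : ∃ m : S i, ε i • m ≠ 0 := (hM i (S i) (hS i)).2 ⟨LinearEquiv.refl _ _⟩
    have h2 : ∃ m : S i, ε j • m ≠ 0 := (hM j (S i) (hS i)).2 ⟨e⟩
    have h3 := LOC_eqv (hloc i) (hloc j) (S i) (hS i) h1 h2
    have h4 := h3.finrank_left (k := k) (ε i)
    rw [hfr, hfr] at h4
    exact hC i j hij h4
  · intro M hMs
    obtain ⟨i, m, hm⟩ := hsimp M hMs
    exact ⟨i, (hM i M hMs).1 ⟨m, hm⟩⟩
  · intro i j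
    have h2 := GL2 (k := k) (ε j) (hloc j) (S j) (hS j) (hM j) (Submodule.span A {ε i})
    have h3 : Module.finrank k ((Submodule.span A {ε i} : Submodule A A).restrictScalars k ⊓
        cor k (ε j) 1 : Submodule k A) = C i j := by
      rw [CAR.inf_eq _ _ (hloc i).2.1, hfr]
    rw [h3] at h2
    exact h2

end CM
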